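import Mathlib

set_option autoImplicit false

/-!
A tree of height `ω₁` of increasing sets of natural numbers, modulo finite sets.
-/

namespace Pool.Agent.H562R3.GapTree

open Set Cardinal

theorem exists_split (R : Set ℕ) (hR : R.Infinite) : ∃ Z1 Z2 : Set ℕ, R = Z1 ∪ Z2 ∧
    Disjoint Z1 Z2 ∧ Z1.Infinite ∧ Z2.Infinite := by
  obtain ⟨e⟩ : Nonempty (ℕ ≃ R) := by
    have := hR.to_subtype
    exact ⟨(nonempty_denumerable R).some.eqv.symm⟩
  refine ⟨(fun n => (e n : ℕ)) '' {n | Even n}, (fun n => (e n : ℕ)) '' {n | ¬ Even n},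
    ?_, ?_, ?_, ?_⟩
  · rw [← Set.image_union]
    ext z
    constructor
    · intro hz
      refine ⟨e.symm ⟨z, hz⟩, ?_, by simp⟩
      by_cases h : Even (e.symm ⟨z, hz⟩)
      · exact Or.inl h
      · exact Or.inr h
    · rintro ⟨n, _, rfl⟩
      exact (e n).2
  · rw [Set.disjoint_left]
    rintro _ ⟨n, h1, rfl⟩ ⟨n', h2, h3⟩
    have h4 : n' = n := (Subtype.val_injective.comp e.injective) h3
    subst h4
    exact h2 h1
  · apply Set.Infinite.image (Subtype.val_injective.comp e.injective).injOn
    rw [Set.infinite_iff_exists_gt]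
    intro n
    exact ⟨2 * (n + 1), ⟨n + 1, by ring⟩, by omega⟩
  · apply Set.Infinite.image (Subtype.val_injective.comp e.injective).injOn
    rw [Set.infinite_iff_exists_gt]
    intro n
    refine ⟨2 * (n + 1) + 1, ?_, by omega⟩
    simp only [Set.mem_ofPred_eq, Nat.not_even_iff_odd]
    exact ⟨n + 1, rfl⟩

open Classical in
/-- the two halves of an infinite set -/
noncomputable def half (c : Bool) (R : Set ℕ) : Set ℕ :=
  if h : R.Infinite then (if c then (exists_split R h).choose
    else (exists_split R h).choose_spec.choose) else ∅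

theorem half_infinite (c : Bool) {R : Set ℕ} (h : R.Infinite) : (half c R).Infinite := by
  have := (exists_split R h).choose_spec.choose_spec
  rw [half, dif_pos h]
  cases c
  · exact this.2.2.2
  · exact this.2.2.1

theorem half_subset (c : Bool) (R : Set ℕ) : half c R ⊆ R := by
  rw [half]
  split_ifs with h h2
  · have := (exists_split R h).choose_spec.choose_spec
    conv_rhs => rw [this.1]
    exact subset_union_left
  · have := (exists_split R h).choose_spec.choose_spec
    conv_rhs => rw [this.1]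
    exact subset_union_right
  · exact Set.empty_subset _

theorem half_disjoint {c c' : Bool} (hc : c ≠ c') (R : Set ℕ) :
    Disjoint (half c R) (half c' R) := by
  by_cases h : R.Infinite
  · have := (exists_split R h).choose_spec.choose_spec
    rw [half, half, dif_pos h, dif_pos h]
    cases c
    · cases c'
      · exact absurd rfl hc
      · exact this.2.1.symm
    · cases c'
      · exact this.2.1
      · exact absurd rfl hc
  · rw [half, dif_neg h]
    exact Set.disjoint_left.mpr (fun x hx => absurd hx (Set.notMem_empty x))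

/-- pseudo-intersections of countable families -/
theorem exists_pseudo (D : ℕ → Set ℕ) (hD : ∀ n, (⋂ i ≤ n, D i).Infinite) :
    ∃ R : Set ℕ, R.Infinite ∧ ∀ n, (R \ D n).Finite := by
  have hex : ∀ n, ∃ x, x ∈ ⋂ i ≤ n, D i ∧ n < x := by
    intro n
    obtain ⟨x, hx, hx2⟩ := (hD n).exists_gt n
    exact ⟨x, hx, hx2⟩
  choose F hF hF2 using hex
  refine ⟨Set.range F, ?_, ?_⟩
  · rw [Set.infinite_iff_exists_gt]
    intro n
    exact ⟨F n, ⟨n, rfl⟩, hF2 n⟩
  · intro m
    apply ((Set.finite_Iio m).image F).subset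
    rintro x ⟨⟨n, rfl⟩, hn⟩
    refine ⟨n, ?_, rfl⟩
    by_contra hcon
    simp only [Set.mem_Iio, not_lt] at hcon
    apply hn
    have := hF n
    simp only [Set.mem_iInter] at this
    exact this m hcon

/-- the requirement on a new pair -/
def Cond {I : Type} (L M : I → Set ℕ) (yR : Set ℕ × Set ℕ) : Prop :=
  yR.2.Infinite ∧ Disjoint yR.1 yR.2 ∧
    ∀ i, (L i \ yR.1).Finite ∧ (yR.1 \ M i).Finite ∧ (yR.2 \ (M i \ L i)).Finite

theorem interpolation {I : Type} [Countable I] (L M : I → Set ℕ)
    (h1 : ∀ i j, (L i \ M j).Finite) (h2 : ∀ S : Finset I, (⋂ i ∈ S, (M i \ L i)).Infinite) :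
    ∃ yR, Cond L M yR := by
  by_cases hI : Nonempty I
  · obtain ⟨e, he⟩ := exists_surjective_nat I
    obtain ⟨R, hR1, hR2⟩ := exists_pseudo (fun n => M (e n) \ L (e n)) (by
      intro n
      classical
      refine (h2 ((Finset.range (n + 1)).image e)).mono ?_
      intro x hx
      simp only [Set.mem_iInter] at hx ⊢
      intro i hi
      exact hx (e i) (Finset.mem_image_of_mem _ (Finset.mem_range.mpr (by omega))))
    let c : Set ℕ := ⋃ n, (L (e n) ∩ ⋂ j ≤ n, M (e j))
    refine ⟨(c \ R, R), hR1, Set.disjoint_left.mpr (fun x hx => hx.2), ?_⟩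
    intro i
    obtain ⟨n, rfl⟩ := he i
    have hc1 : (L (e n) \ c).Finite := by
      have : (⋃ j ∈ Set.Iic n, (L (e n) \ M (e j))).Finite :=
        (Set.finite_Iic n).biUnion (fun j _ => h1 _ _)
      refine this.subset ?_
      rintro x ⟨hx1, hx2⟩
      simp only [c, Set.mem_iUnion, Set.mem_inter_iff, Set.mem_iInter, not_exists, not_and] at hx2
      have := hx2 n hx1
      push Not at this
      obtain ⟨j, hj, hxj⟩ := this
      simp only [Set.mem_iUnion]
      exact ⟨j, hj, hx1, hxj⟩
    have hc2 : (c \ M (e n)).Finite := by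
      have : (⋃ j ∈ Set.Iio n, (L (e j) \ M (e n))).Finite :=
        (Set.finite_Iio n).biUnion (fun j _ => h1 _ _)
      refine this.subset ?_
      rintro x ⟨hx1, hx2⟩
      simp only [c, Set.mem_iUnion, Set.mem_inter_iff, Set.mem_iInter] at hx1
      obtain ⟨j, hj1, hj2⟩ := hx1
      simp only [Set.mem_iUnion]
      refine ⟨j, ?_, hj1, hx2⟩
      by_contra hcon
      simp only [Set.mem_Iio, not_lt] at hcon
      exact hx2 (hj2 n hcon)
    refine ⟨?_, ?_, hR2 n⟩
    · refine (hc1.union (hR2 n)).subset ?_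
      rintro x ⟨hx1, hx2⟩
      by_cases hxc : x ∈ c
      · right
        have hxR : x ∈ R := by
          by_contra hcon
          exact hx2 ⟨hxc, hcon⟩
        exact ⟨hxR, fun h => h.2 hx1⟩
      · left
        exact ⟨hx1, hxc⟩
    · exact hc2.subset (fun x hx => ⟨hx.1.1, hx.2⟩)
  · refine ⟨(∅, Set.univ), Set.infinite_univ, Set.disjoint_left.mpr
      (fun x hx => absurd hx (Set.notMem_empty x)), fun i => (hI ⟨i⟩).elim⟩

/-- lower bound after a bit -/
noncomputable def lo (yR : Set ℕ × Set ℕ) (c : Bool) : Set ℕ := yR.1 ∪ half false (half c yR.2)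

/-- upper bound after a bit -/
noncomputable def up (yR : Set ℕ × Set ℕ) (c : Bool) : Set ℕ := yR.1 ∪ half c yR.2

section

variable {Ω : Type} [LinearOrder Ω] [WellFoundedLT Ω]

open Classical in
/-- new pair from the old data -/
noncomputable def G (a : Ω) (d : Set.Iio a → (Set ℕ × Set ℕ) × Bool) : Set ℕ × Set ℕ :=
  if h : ∃ yR, Cond (fun i => lo (d i).1 (d i).2) (fun i => up (d i).1 (d i).2) yR then h.choose
  else (∅, Set.univ)

/-- the recursion -/
noncomputable def F : Ω → (Ω → Bool) → Set ℕ × Set ℕ :=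
  (wellFounded_lt (α := Ω)).fix (C := fun _ => (Ω → Bool) → Set ℕ × Set ℕ)
    (fun a IH b => G a (fun i => (IH i.1 i.2 b, b i.1)))

theorem F_eq (a : Ω) (b : Ω → Bool) : F a b = G a (fun i => (F i.1 b, b i.1)) := by
  conv_lhs => rw [F, WellFounded.fix_eq]
  rfl

theorem F_congr (a : Ω) (b b' : Ω → Bool) (h : ∀ i < a, b i = b' i) : F a b = F a b' := by
  induction a using WellFoundedLT.induction with
  | ind a IH =>
    rw [F_eq, F_eq]
    congr 1
    funext i
    rw [IH i.1 i.2 (fun j hj => h j (lt_trans hj i.2)), h i.1 i.2]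

theorem F_cond (hΩ : ∀ a : Ω, (Set.Iio a).Countable) (a : Ω) (b : Ω → Bool) :
    Cond (fun i : Set.Iio a => lo (F i.1 b) (b i.1)) (fun i => up (F i.1 b) (b i.1)) (F a b) := by
  induction a using WellFoundedLT.induction with
  | ind a IH =>
    have hex : ∃ yR, Cond (fun i : Set.Iio a => lo (F i.1 b) (b i.1))
        (fun i => up (F i.1 b) (b i.1)) yR := by
      have : Countable (Set.Iio a) := (hΩ a).to_subtype
      -- properties of pairs of smaller indices
      have hsub : ∀ i : Ω, lo (F i b) (b i) ⊆ up (F i b) (b i) := by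
        intro i
        exact Set.union_subset_union_right _ (half_subset _ _)
      have hupR : ∀ i : Ω, up (F i b) (b i) ⊆ (F i b).1 ∪ (F i b).2 := by
        intro i
        exact Set.union_subset_union_right _ (half_subset _ _)
      have hup : ∀ i < a, ∀ j < i, (up (F i b) (b i) \ up (F j b) (b j)).Finite := by
        intro i hi j hj
        have hc := (IH i hi).2.2 ⟨j, hj⟩
        refine (hc.2.1.union hc.2.2).subset ?_
        rintro x ⟨hx1, hx2⟩
        rcases hupR i hx1 with h | h
        · exact Or.inl ⟨h, hx2⟩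
        · exact Or.inr ⟨h, fun h' => hx2 h'.1⟩
      have hD : ∀ i < a, (up (F i b) (b i) \ lo (F i b) (b i)).Infinite := by
        intro i hi
        have hc := IH i hi
        have hinf : (half true (half (b i) (F i b).2)).Infinite :=
          half_infinite _ (half_infinite _ hc.1)
        refine hinf.mono ?_
        intro x hx
        have hx1 : x ∈ half (b i) (F i b).2 := half_subset _ _ hx
        refine ⟨Or.inr hx1, ?_⟩
        rintro (h | h)
        · exact Set.disjoint_left.mp hc.2.1 h (half_subset _ _ hx1)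
        · exact Set.disjoint_left.mp (half_disjoint (by decide) _) h hx
      have hDsub : ∀ i : Ω, up (F i b) (b i) \ lo (F i b) (b i) ⊆ (F i b).2 := by
        rintro i x ⟨hx1, hx2⟩
        rcases hupR i hx1 with h | h
        · exact absurd (Or.inl h) hx2
        · exact h
      apply interpolation
      · rintro ⟨i, hi⟩ ⟨j, hj⟩
        rcases lt_trichotomy i j with h | h | h
        · have hc := (IH j hj).2.2 ⟨i, h⟩
          refine hc.1.subset ?_
          rintro x ⟨hx1, hx2⟩
          exact ⟨hx1, fun h' => hx2 (Or.inl h')⟩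
        · subst h
          have : lo (F i b) (b i) \ up (F i b) (b i) = ∅ := Set.sdiff_eq_empty.mpr (hsub i)
          simp only [this]
          exact Set.finite_empty
        · refine (hup i hi j h).subset ?_
          rintro x ⟨hx1, hx2⟩
          exact ⟨hsub i hx1, hx2⟩
      · intro S
        by_cases hne : S.Nonempty
        · have hmem := S.max'_mem hne
          set k := S.max' hne with hk
          have hfin : ∀ i ∈ S, ((up (F k.1 b) (b k.1) \ lo (F k.1 b) (b k.1)) \
              (up (F i.1 b) (b i.1) \ lo (F i.1 b) (b i.1))).Finite := by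
            intro i hi
            rcases lt_or_eq_of_le (S.le_max' i hi) with h | h
            · have hc := (IH k.1 k.2).2.2 ⟨i.1, h⟩
              refine hc.2.2.subset ?_
              rintro x ⟨hx1, hx2⟩
              exact ⟨hDsub _ hx1, hx2⟩
            · have h' : i = k := h
              rw [h']
              simp
          have hbig : ((up (F k.1 b) (b k.1) \ lo (F k.1 b) (b k.1)) \
              ⋃ i ∈ S, ((up (F k.1 b) (b k.1) \ lo (F k.1 b) (b k.1)) \
              (up (F i.1 b) (b i.1) \ lo (F i.1 b) (b i.1)))).Infinite := by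
            apply (hD k.1 k.2).sdiff
            exact S.finite_toSet.biUnion (fun i hi => hfin i hi)
          refine hbig.mono ?_
          rintro x ⟨hx1, hx2⟩
          simp only [Set.mem_iInter]
          intro i hi
          by_contra hcon
          apply hx2
          simp only [Set.mem_iUnion]
          exact ⟨i, hi, hx1, hcon⟩
        · rw [Finset.not_nonempty_iff_eq_empty] at hne
          subst hne
          simp [Set.infinite_univ]
    rw [F_eq a b, G, dif_pos hex]
    exact hex.choose_spec

/-- the increasing sets -/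
noncomputable def Y (b : Ω → Bool) (a : Ω) : Set ℕ := (F a b).1

theorem Y_mono (hΩ : ∀ a : Ω, (Set.Iio a).Countable) (b : Ω → Bool) {i a : Ω} (h : i < a) :
    (Y b i \ Y b a).Finite := by
  have hc := (F_cond hΩ a b).2.2 ⟨i, h⟩
  refine hc.1.subset ?_
  rintro x ⟨hx1, hx2⟩
  exact ⟨Or.inl hx1, hx2⟩

theorem Y_strict (hΩ : ∀ a : Ω, (Set.Iio a).Countable) (b : Ω → Bool) {i a : Ω} (h : i < a) :
    (Y b a \ Y b i).Infinite := by
  have hc := (F_cond hΩ a b).2.2 ⟨i, h⟩
  have hci := F_cond hΩ i b
  have hinf : (half false (half (b i) (F i b).2)).Infinite :=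
    half_infinite _ (half_infinite _ hci.1)
  have h1 : (half false (half (b i) (F i b).2) \ (lo (F i b) (b i) \ (F a b).1)).Infinite :=
    hinf.sdiff hc.1
  refine h1.mono ?_
  rintro x ⟨hx1, hx2⟩
  have hx3 : x ∈ lo (F i b) (b i) := Or.inr hx1
  refine ⟨?_, ?_⟩
  · by_contra hcon
    exact hx2 ⟨hx3, hcon⟩
  · intro hcon
    exact Set.disjoint_left.mp hci.2.1 hcon (half_subset _ _ (half_subset _ _ hx1))

theorem Y_inter (hΩ : ∀ a : Ω, (Set.Iio a).Countable) (b b' : Ω → Bool) (δ : Ω)
    (h : ∀ i < δ, b i = b' i) (hδ : b δ ≠ b' δ) (i j : Ω) :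
    ((Y b i ∩ Y b' j) \ Y b δ).Finite := by
  have hF : F δ b = F δ b' := F_congr δ b b' h
  rcases le_or_gt i δ with hi | hi
  · rcases lt_or_eq_of_le hi with hi | hi
    · exact (Y_mono hΩ b hi).subset (fun x hx => ⟨hx.1.1, hx.2⟩)
    · subst hi
      exact Set.finite_empty.subset (fun x hx => absurd hx.1.1 hx.2)
  rcases le_or_gt j δ with hj | hj
  · have hYY : Y b δ = Y b' δ := by simp only [Y, hF]
    rcases lt_or_eq_of_le hj with hj | hj
    · rw [hYY]
      exact (Y_mono hΩ b' hj).subset (fun x hx => ⟨hx.1.2, hx.2⟩)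
    · subst hj
      rw [hYY]
      exact Set.finite_empty.subset (fun x hx => absurd hx.1.2 hx.2)
  have h1 := ((F_cond hΩ i b).2.2 ⟨δ, hi⟩).2.1
  have h2 := ((F_cond hΩ j b').2.2 ⟨δ, hj⟩).2.1
  refine (h1.union h2).subset ?_
  rintro x ⟨⟨hx1, hx2⟩, hx3⟩
  by_cases hxu : x ∈ up (F δ b) (b δ)
  · right
    refine ⟨hx2, ?_⟩
    rintro (h' | h')
    · rw [← hF] at h'
      exact hx3 h'
    · rcases hxu with h'' | h''
      · exact hx3 h''
      · rw [hF] at h''
        exact Set.disjoint_left.mp (half_disjoint hδ _) h'' h'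
  · left
    exact ⟨hx1, hxu⟩

end

end Pool.Agent.H562R3.GapTree
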