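import Mathlib

set_option autoImplicit false

/-!
Tools for counting Q-points: the dominating number, the pseudo-intersection lemma below it,
and the existence of ultrafilters along which countably many distinct ultrafilters are discrete.
-/

namespace Pool.Agent.H562R3

open Set Filter Cardinal

/-- A family of functions is dominating. -/
def Dominating (D : Set (ℕ → ℕ)) : Prop :=
  ∀ f : ℕ → ℕ, ∃ d ∈ D, ∃ N, ∀ n, N ≤ n → f n ≤ d n

/-- The dominating number. -/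
noncomputable def dNum : Cardinal.{0} :=
  sInf {c : Cardinal.{0} | ∃ D : Set (ℕ → ℕ), Cardinal.mk D = c ∧ Dominating D}

theorem dNum_mem : ∃ D : Set (ℕ → ℕ), Cardinal.mk D = dNum ∧ Dominating D := by
  have h : ({c : Cardinal.{0} | ∃ D : Set (ℕ → ℕ), Cardinal.mk D = c ∧ Dominating D}).Nonempty :=
    ⟨Cardinal.mk (Set.univ : Set (ℕ → ℕ)), Set.univ, rfl,
      fun f => ⟨f, trivial, 0, fun n _ => le_rfl⟩⟩
  exact csInf_mem h

theorem not_dom {T : Type} (hT : Cardinal.mk T < dNum) (F : T → ℕ → ℕ) :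
    ∃ g : ℕ → ℕ, ∀ t : T, ∀ N : ℕ, ∃ n, N ≤ n ∧ F t n < g n := by
  by_contra hcon
  push Not at hcon
  have hdom : Dominating (Set.range F) := by
    intro g
    obtain ⟨t, N, h⟩ := hcon g
    exact ⟨F t, ⟨t, rfl⟩, N, h⟩
  have h1 : dNum ≤ Cardinal.mk (Set.range F) := csInf_le' ⟨_, rfl, hdom⟩
  exact absurd (h1.trans Cardinal.mk_range_le) (not_le.mpr hT)

theorem aleph0_lt_dNum : Cardinal.aleph0 < dNum := by
  by_contra hcon
  push Not at hcon
  obtain ⟨D, hD, hdom⟩ := dNum_mem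
  rw [← hD] at hcon
  have hc : D.Countable := Cardinal.le_aleph0_iff_set_countable.mp hcon
  have hne : D.Nonempty := by
    obtain ⟨d, hd, _⟩ := hdom (fun _ => 0)
    exact ⟨d, hd⟩
  obtain ⟨e, he⟩ := hc.exists_eq_range hne
  obtain ⟨d, hd, N, hN⟩ := hdom (fun n => ∑ i ∈ Finset.range (n + 1), e i n + 1)
  rw [he] at hd
  obtain ⟨i, rfl⟩ := hd
  have h1 := hN (max N i) (le_max_left _ _)
  have h2 : e i (max N i) ≤ ∑ j ∈ Finset.range (max N i + 1), e j (max N i) :=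
    Finset.single_le_sum (f := fun j => e j (max N i)) (fun _ _ => Nat.zero_le _)
      (Finset.mem_range.mpr (by have := le_max_right N i; omega))
  omega

/-- A directed family of infinite sets is contained in a nonprincipal ultrafilter. -/
theorem exists_ultra {T : Type} [Nonempty T] (b : T → Set ℕ)
    (hdir : ∀ s t, ∃ r, b r ⊆ b s ∧ b r ⊆ b t) (hinf : ∀ t, (b t).Infinite) :
    ∃ W : Ultrafilter ℕ, (∀ t, b t ∈ W) ∧ ∀ s : Set ℕ, s.Finite → s ∉ W := by
  let F : Filter ℕ := ⨅ p : T × ℕ, 𝓟 (b p.1 ∩ Set.Ici p.2)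
  have hF : F.NeBot := by
    apply Filter.iInf_neBot_of_directed'
    · rintro ⟨s, m⟩ ⟨t, n⟩
      obtain ⟨r, hr1, hr2⟩ := hdir s t
      refine ⟨(r, max m n), ?_, ?_⟩
      · simp only [ge_iff_le, le_principal_iff, mem_principal]
        intro x hx
        exact ⟨hr1 hx.1, Set.mem_Ici.mpr (le_trans (le_max_left _ _) (Set.mem_Ici.mp hx.2))⟩
      · simp only [ge_iff_le, le_principal_iff, mem_principal]
        intro x hx
        exact ⟨hr2 hx.1, Set.mem_Ici.mpr (le_trans (le_max_right _ _) (Set.mem_Ici.mp hx.2))⟩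
    · rintro ⟨t, n⟩
      rw [principal_neBot_iff]
      obtain ⟨x, hx, hx2⟩ := (hinf t).exists_gt n
      exact ⟨x, hx, hx2.le⟩
  have hle := Ultrafilter.of_le F
  refine ⟨Ultrafilter.of F, ?_, ?_⟩
  · intro t
    apply hle
    exact Filter.mem_iInf_of_mem (t, 0) (by simp)
  · intro s hs hsW
    obtain ⟨N, hN⟩ := hs.bddAbove
    obtain ⟨t⟩ := (inferInstance : Nonempty T)
    have h1 : Set.Ici (N + 1) ∈ Ultrafilter.of F := by
      apply hle
      exact Filter.mem_iInf_of_mem (t, N + 1) (by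
        rw [mem_principal]; exact Set.inter_subset_right)
    have h2 : s ∩ Set.Ici (N + 1) ∈ Ultrafilter.of F := Filter.inter_mem hsW h1
    obtain ⟨x, hx1, hx2⟩ := Ultrafilter.nonempty_of_mem h2
    have := hN hx1
    simp only [Set.mem_Ici] at hx2
    omega

/-- Ketonen's argument: below the dominating number, pseudo-intersections can be taken. -/
theorem ketonen {T : Type} (hT : Cardinal.mk T < dNum) (b : T → Set ℕ) (C : ℕ → Set ℕ)
    (hinf : ∀ t n, (b t ∩ ⋂ i ≤ n, C i).Infinite) :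
    ∃ A : Set ℕ, (∀ n, (A \ C n).Finite) ∧ ∀ t, (b t ∩ A).Infinite := by
  have hex : ∀ t n, ∃ x, x ∈ b t ∩ ⋂ i ≤ n, C i ∧ n < x := by
    intro t n
    obtain ⟨x, hx, hx2⟩ := (hinf t n).exists_gt n
    exact ⟨x, hx, hx2⟩
  choose F hF hF2 using hex
  obtain ⟨g, hg⟩ := not_dom hT F
  refine ⟨{i | ∃ n, i < g n ∧ ∀ j ≤ n, i ∈ C j}, ?_, ?_⟩
  · intro m
    apply Set.Finite.subset (Set.finite_Iio (∑ n ∈ Finset.range m, g n))
    rintro i ⟨⟨n, hn1, hn2⟩, hi⟩
    have hnm : n < m := by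
      by_contra hcon
      push Not at hcon
      exact hi (hn2 m hcon)
    have : g n ≤ ∑ n ∈ Finset.range m, g n :=
      Finset.single_le_sum (f := g) (fun _ _ => Nat.zero_le _) (Finset.mem_range.mpr hnm)
    exact lt_of_lt_of_le hn1 this
  · intro t
    rw [Set.infinite_iff_exists_gt]
    intro N
    obtain ⟨n, hn1, hn2⟩ := hg t N
    have h1 := hF t n
    refine ⟨F t n, ⟨h1.1, n, hn2, ?_⟩, lt_of_le_of_lt hn1 (hF2 t n)⟩
    intro j hj
    have := h1.2
    simp only [Set.mem_iInter] at this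
    exact this j hj

/-- `A` is good for the sequence of ultrafilters `u`: apart from one exceptional index, every
`u k` has a member which belongs to only finitely many `u j`, `j ∈ A`. -/
def Good (u : ℕ → Ultrafilter ℕ) (A : Set ℕ) : Prop :=
  ∃ m, ∀ k, k ≠ m → ∃ N ∈ u k, {j | j ∈ A ∧ N ∈ u j}.Finite

theorem Good.mono {u : ℕ → Ultrafilter ℕ} {A B : Set ℕ} (h : Good u A) (hBA : B ⊆ A) :
    Good u B := by
  obtain ⟨m, hm⟩ := h
  refine ⟨m, fun k hk => ?_⟩
  obtain ⟨N, hN, hfin⟩ := hm k hk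
  exact ⟨N, hN, hfin.subset (fun j hj => ⟨hBA hj.1, hj.2⟩)⟩

theorem exists_sep {U V : Ultrafilter ℕ} (h : U ≠ V) : ∃ N ∈ U, N ∉ V := by
  by_contra hcon
  push Not at hcon
  apply h
  apply Ultrafilter.coe_injective
  apply le_antisymm
  · intro s hs
    by_contra hs'
    have h1 : sᶜ ∈ U := Ultrafilter.compl_mem_iff_notMem.mpr hs'
    have h2 := hcon _ h1
    exact (Ultrafilter.compl_mem_iff_notMem.mp h2) hs
  · intro s hs
    exact hcon s hs

theorem key {T : Type} [Nonempty T] (hT : Cardinal.mk T < dNum) (b : T → Set ℕ)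
    (hdir : ∀ s t, ∃ r, b r ⊆ b s ∧ b r ⊆ b t) (hinf : ∀ t, (b t).Infinite)
    (u : ℕ → Ultrafilter ℕ) (hu : Function.Injective u) :
    ∃ A : Set ℕ, Good u A ∧ ∀ t, (b t ∩ A).Infinite := by
  obtain ⟨W, hW, hWfin⟩ := exists_ultra b hdir hinf
  set z : Ultrafilter ℕ := W.bind u with hz
  have hzmem : ∀ s, s ∈ z ↔ {k | s ∈ u k} ∈ W := fun s => Iff.rfl
  -- choose separating sets
  have hsep : ∀ k, ∃ N : Set ℕ, (u k ≠ z → N ∈ u k ∧ {j | N ∈ u j}ᶜ ∈ W) ∧
      (u k = z → N = ∅) := by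
    intro k
    by_cases hk : u k = z
    · exact ⟨∅, fun h => absurd hk h, fun _ => rfl⟩
    · obtain ⟨N, hN1, hN2⟩ := exists_sep hk
      refine ⟨N, fun _ => ⟨hN1, ?_⟩, fun h => absurd h hk⟩
      rw [hzmem] at hN2
      exact Ultrafilter.compl_mem_iff_notMem.mpr hN2
  choose N hN1 hN2 using hsep
  obtain ⟨A, hA1, hA2⟩ := ketonen hT b (fun k => {j | N k ∈ u j}ᶜ) (by
    intro t n
    have hmem : b t ∩ ⋂ i ≤ n, {j | N i ∈ u j}ᶜ ∈ W := by
      apply Filter.inter_mem (hW t)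
      have hfin : {i | i ≤ n}.Finite := Set.finite_le_nat n
      have := (Filter.biInter_mem (f := (W : Filter ℕ)) (s := fun i => {j | N i ∈ u j}ᶜ)
        hfin).mpr (by
        intro i _
        by_cases hi : u i = z
        · rw [hN2 i hi]
          have : {j | (∅ : Set ℕ) ∈ u j}ᶜ = Set.univ := by
            ext j
            simp
          rw [this]
          exact Filter.univ_mem
        · exact (hN1 i hi).2)
      exact this
    intro hfin
    exact hWfin _ hfin hmem)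
  refine ⟨A, ?_, hA2⟩
  by_cases hex : ∃ m, u m = z
  · obtain ⟨m, hm⟩ := hex
    refine ⟨m, fun k hk => ?_⟩
    have hkz : u k ≠ z := fun h => hk (hu (h.trans hm.symm))
    refine ⟨N k, (hN1 k hkz).1, ?_⟩
    apply (hA1 k).subset
    rintro j ⟨hj1, hj2⟩
    exact ⟨hj1, fun h => h hj2⟩
  · push Not at hex
    refine ⟨0, fun k _ => ?_⟩
    refine ⟨N k, (hN1 k (hex k)).1, ?_⟩
    apply (hA1 k).subset
    rintro j ⟨hj1, hj2⟩
    exact ⟨hj1, fun h => h hj2⟩

theorem key2 {T : Type} [Nonempty T] (hT : Cardinal.mk T < dNum) (b : T → Set ℕ)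
    (hdir : ∀ s t, ∃ r, b r ⊆ b s ∧ b r ⊆ b t) (hinf : ∀ t, (b t).Infinite)
    (u v : ℕ → Ultrafilter ℕ) (hu : Function.Injective u) (hv : Function.Injective v) :
    ∃ A : Set ℕ, Good u A ∧ Good v A ∧ ∀ t, (b t ∩ A).Infinite := by
  obtain ⟨A, hA1, hA2⟩ := key hT b hdir hinf u hu
  obtain ⟨B, hB1, hB2⟩ := key hT (fun t => b t ∩ A) (by
    intro s t
    obtain ⟨r, h1, h2⟩ := hdir s t
    exact ⟨r, Set.inter_subset_inter_left _ h1, Set.inter_subset_inter_left _ h2⟩) hA2 v hv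
  refine ⟨A ∩ B, hA1.mono Set.inter_subset_left, hB1.mono Set.inter_subset_right, fun t => ?_⟩
  have := hB2 t
  rwa [Set.inter_assoc] at this

/-- Using goodness along an ultrafilter. -/
theorem good_use {u : ℕ → Ultrafilter ℕ} {A : Set ℕ} (hA : Good u A) (W : Ultrafilter ℕ)
    (hAW : A ∈ W) : ∃ B ∈ W, B ⊆ A ∧ ∀ k, u k ≠ W.bind u → ∃ N ∈ u k,
      {j | j ∈ B ∧ N ∈ u j}.Finite := by
  obtain ⟨m, hm⟩ := hA
  have hzmem : ∀ s, s ∈ W.bind u ↔ {k | s ∈ u k} ∈ W := fun s => Iff.rfl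
  by_cases hmz : u m = W.bind u
  · refine ⟨A, hAW, subset_rfl, fun k hk => hm k ?_⟩
    rintro rfl
    exact hk hmz
  · obtain ⟨N, hN1, hN2⟩ := exists_sep hmz
    rw [hzmem] at hN2
    have h1 : {k | N ∈ u k}ᶜ ∈ W := Ultrafilter.compl_mem_iff_notMem.mpr hN2
    refine ⟨A ∩ {k | N ∈ u k}ᶜ, Filter.inter_mem hAW h1, Set.inter_subset_left, fun k hk => ?_⟩
    by_cases hkm : k = m
    · subst hkm
      refine ⟨N, hN1, ?_⟩
      convert Set.finite_empty
      ext j
      simp only [Set.mem_inter_iff, Set.mem_compl_iff, Set.mem_ofPred_eq, Set.mem_empty_iff_false,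
        iff_false, not_and, and_imp]
      intro _ h2 h3
      exact h2 h3
    · obtain ⟨N', hN', hfin⟩ := hm k hkm
      exact ⟨N', hN', hfin.subset (fun j hj => ⟨hj.1.1, hj.2⟩)⟩

/-- A set along which the sequence is locally finite is discrete: disjoint members. -/
theorem disc {u : ℕ → Ultrafilter ℕ} (hu : Function.Injective u) (A : Set ℕ)
    (hA : ∀ k ∈ A, ∃ N ∈ u k, {j | j ∈ A ∧ N ∈ u j}.Finite) :
    ∃ Z : ℕ → Set ℕ, (∀ k ∈ A, Z k ∈ u k) ∧ ∀ j ∈ A, ∀ k ∈ A, j ≠ k → Disjoint (Z j) (Z k) := by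
  have h1 : ∀ k, ∃ M : Set ℕ, k ∈ A → (M ∈ u k ∧ ∀ j ∈ A, j ≠ k → M ∉ u j) := by
    intro k
    by_cases hk : k ∈ A
    swap
    · exact ⟨∅, fun h => absurd h hk⟩
    obtain ⟨N, hN, hfin⟩ := hA k hk
    have hsep : ∀ j, ∃ M : Set ℕ, j ≠ k → (M ∈ u k ∧ M ∉ u j) := by
      intro j
      by_cases hj : j = k
      · exact ⟨∅, fun h => absurd hj h⟩
      · obtain ⟨M, hM1, hM2⟩ := exists_sep (U := u k) (V := u j) (fun h => hj (hu h).symm)
        exact ⟨M, fun _ => ⟨hM1, hM2⟩⟩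
    choose M hM using hsep
    refine ⟨N ∩ ⋂ j ∈ {j | (j ∈ A ∧ N ∈ u j) ∧ j ≠ k}, M j, fun _ => ⟨?_, ?_⟩⟩
    · apply Filter.inter_mem hN
      rw [Filter.biInter_mem (hfin.subset (fun j hj => hj.1))]
      intro j hj
      exact (hM j hj.2).1
    · intro j hjA hjk hmem
      have hNj : N ∈ u j := Filter.mem_of_superset hmem Set.inter_subset_left
      have h2 : M j ∈ u j := Filter.mem_of_superset hmem (by
        intro x hx
        have := hx.2
        simp only [Set.mem_iInter] at this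
        exact this j ⟨⟨hjA, hNj⟩, hjk⟩)
      exact (hM j hjk).2 h2
  choose M hM using h1
  refine ⟨fun k => M k \ ⋃ i ∈ {i | i ∈ A ∧ i < k}, M i, ?_, ?_⟩
  · intro k hk
    have hfin : ({i | i ∈ A ∧ i < k} : Set ℕ).Finite :=
      (Set.finite_Iio k).subset (fun i hi => hi.2)
    have h2 : (⋂ i ∈ {i | i ∈ A ∧ i < k}, (M i)ᶜ) ∈ u k := by
      rw [← Ultrafilter.mem_coe, Filter.biInter_mem hfin]
      intro i hi
      apply Ultrafilter.compl_mem_iff_notMem.mpr
      exact (hM i hi.1).2 k hk (by have := hi.2; omega)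
    refine Filter.mem_of_superset (Filter.inter_mem (hM k hk).1 h2) ?_
    rintro x ⟨hx1, hx2⟩
    refine ⟨hx1, ?_⟩
    simp only [Set.mem_iUnion, not_exists]
    intro i hi hxi
    simp only [Set.mem_iInter] at hx2
    exact hx2 i hi hxi
  · have haux : ∀ j ∈ A, ∀ k ∈ A, j < k →
        Disjoint (M j \ ⋃ i ∈ {i | i ∈ A ∧ i < j}, M i) (M k \ ⋃ i ∈ {i | i ∈ A ∧ i < k}, M i) := by
      intro j hj k hk hjk
      rw [Set.disjoint_left]
      rintro x ⟨hx1, _⟩ ⟨_, hx2⟩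
      apply hx2
      simp only [Set.mem_iUnion]
      exact ⟨j, ⟨hj, hjk⟩, hx1⟩
    intro j hj k hk hjk
    rcases lt_or_gt_of_ne hjk with h | h
    · exact haux j hj k hk h
    · exact (haux k hk j hj h).symm

end Pool.Agent.H562R3
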