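import Pool.Agent.H562R3.QRec

set_option autoImplicit false

/-!
Limits of Q-points along good ultrafilters.
-/

namespace Pool.Agent.H562R3

open Set Filter Cardinal

theorem map_mem {U : Ultrafilter ℕ} {f : ℕ → ℕ} {s : Set ℕ} : s ∈ U.map f ↔ f ⁻¹' s ∈ U :=
  Iff.rfl

theorem bind_mem {W : Ultrafilter ℕ} {u : ℕ → Ultrafilter ℕ} {s : Set ℕ} :
    s ∈ W.bind u ↔ {k | s ∈ u k} ∈ W := Iff.rfl

theorem bind_map (W : Ultrafilter ℕ) (u : ℕ → Ultrafilter ℕ) (f : ℕ → ℕ) :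
    (W.bind u).map f = W.bind (fun k => (u k).map f) := by
  ext s
  exact Iff.rfl

theorem nonprincipal_fin {U : Ultrafilter ℕ} (h : ∀ n : ℕ, ({n} : Set ℕ) ∉ U) (s : Set ℕ)
    (hs : s.Finite) : s ∉ U := by
  intro hsU
  rw [← Ultrafilter.mem_coe] at hsU
  have := (Ultrafilter.finite_biUnion_mem_iff (f := U) hs (s := fun n => ({n} : Set ℕ))).mp (by
    simpa using hsU)
  obtain ⟨n, _, hn⟩ := this
  exact h n hn

/-- nearly coherent ultrafilters with selectors are isomorphic -/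
theorem iso_of_map_eq {U V : Ultrafilter ℕ} (hU : ∀ n : ℕ, ({n} : Set ℕ) ∉ U) (f : ℕ → ℕ)
    (hf : ∀ m, {i | f i = m}.Finite) (hfU : ∃ X ∈ U, InjOn f X) (hfV : ∃ X ∈ V, InjOn f X)
    (heq : U.map f = V.map f) : ∃ σ : Equiv.Perm ℕ, U.map σ = V := by
  classical
  obtain ⟨X, hX, hXi⟩ := hfU
  obtain ⟨Y, hY, hYi⟩ := hfV
  have hZ1 : f '' X ∈ U.map f := Filter.image_mem_map hX
  have hZ2 : f '' Y ∈ U.map f := by
    rw [heq]
    exact Filter.image_mem_map hY
  have hnp : ∀ s : Set ℕ, s.Finite → s ∉ U.map f := by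
    intro s hs hmem
    rw [map_mem] at hmem
    refine nonprincipal_fin hU _ ?_ hmem
    have : f ⁻¹' s = ⋃ m ∈ s, {i | f i = m} := by
      ext i
      simp
    rw [this]
    exact hs.biUnion (fun m _ => hf m)
  have hZ : f '' X ∩ f '' Y ∈ U.map f := Filter.inter_mem hZ1 hZ2
  -- split into two infinite parts
  have hZinf : (f '' X ∩ f '' Y).Infinite := fun hfin => hnp _ hfin hZ
  obtain ⟨Z1, Z2, hun, hdis, hi1, hi2⟩ : ∃ Z1 Z2 : Set ℕ, f '' X ∩ f '' Y = Z1 ∪ Z2 ∧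
      Disjoint Z1 Z2 ∧ Z1.Infinite ∧ Z2.Infinite := by
    obtain ⟨e⟩ : Nonempty (ℕ ≃ (f '' X ∩ f '' Y : Set ℕ)) := by
      have := hZinf.to_subtype
      exact ⟨(nonempty_denumerable (f '' X ∩ f '' Y : Set ℕ)).some.eqv.symm⟩
    refine ⟨(fun n => (e n : ℕ)) '' {n | Even n}, (fun n => (e n : ℕ)) '' {n | ¬ Even n},
      ?_, ?_, ?_, ?_⟩
    · rw [← Set.image_union]
      ext z
      constructor
      · intro hz
        refine ⟨e.symm ⟨z, hz⟩, ?_, by simp⟩
        by_cases h : Even (e.symm ⟨z, hz⟩)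
        · exact Or.inl h
        · exact Or.inr h
      · rintro ⟨n, _, rfl⟩
        exact (e n).2
    · rw [Set.disjoint_left]
      rintro _ ⟨n, h1, rfl⟩ ⟨n', h2, h3⟩
      have h4 : n' = n := (Subtype.val_injective.comp e.injective) h3
      subst h4
      exact h2 h1
    · apply Set.Infinite.image (Subtype.val_injective.comp e.injective).injOn
      rw [Set.infinite_iff_exists_gt]
      intro n
      exact ⟨2 * (n + 1), ⟨n + 1, by ring⟩, by omega⟩
    · apply Set.Infinite.image (Subtype.val_injective.comp e.injective).injOn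
      rw [Set.infinite_iff_exists_gt]
      intro n
      refine ⟨2 * (n + 1) + 1, ?_, by omega⟩
      simp only [Set.mem_ofPred_eq, Nat.not_even_iff_odd]
      exact ⟨n + 1, rfl⟩
  have hcase : ∃ Z Z' : Set ℕ, Z ∈ U.map f ∧ Z ⊆ f '' X ∩ f '' Y ∧ Z' ⊆ f '' X ∩ f '' Y ∧
      Disjoint Z Z' ∧ Z'.Infinite := by
    rw [hun] at hZ
    rcases Ultrafilter.union_mem_iff.mp hZ with h | h
    · exact ⟨Z1, Z2, h, by rw [hun]; exact subset_union_left, by rw [hun]; exact subset_union_right,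
        hdis, hi2⟩
    · exact ⟨Z2, Z1, h, by rw [hun]; exact subset_union_right, by rw [hun]; exact subset_union_left,
        hdis.symm, hi1⟩
  obtain ⟨Z, Z', hZm, hZs, hZ's, hdisj, hZ'inf⟩ := hcase
  have hcompl : ∀ X' : Set ℕ, Z' ⊆ f '' X' → ((X' ∩ f ⁻¹' Z)ᶜ : Set ℕ).Infinite := by
    intro X' hX' hfin
    apply hZ'inf
    refine (hfin.image f).subset ?_
    intro z hz
    obtain ⟨x, hx, rfl⟩ := hX' hz
    refine ⟨x, ?_, rfl⟩
    rintro ⟨_, h2⟩
    exact Set.disjoint_left.mp hdisj h2 hz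
  -- bijections
  have hbij : ∀ X' : Set ℕ, InjOn f X' → Z ⊆ f '' X' → BijOn f (X' ∩ f ⁻¹' Z) Z := by
    intro X' hinj hsub
    refine ⟨fun x hx => hx.2, hinj.mono Set.inter_subset_left, ?_⟩
    intro z hz
    obtain ⟨x, hx, rfl⟩ := hsub hz
    exact ⟨x, ⟨hx, hz⟩, rfl⟩
  have hbX := hbij X hXi (hZs.trans Set.inter_subset_left)
  have hbY := hbij Y hYi (hZs.trans Set.inter_subset_right)
  let eX := hbX.equiv
  let eY := hbY.equiv
  have hcX := hcompl X (hZ's.trans Set.inter_subset_left)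
  have hcY := hcompl Y (hZ's.trans Set.inter_subset_right)
  have := hcX.to_subtype
  have := hcY.to_subtype
  have eC : ((X ∩ f ⁻¹' Z)ᶜ : Set ℕ) ≃ ((Y ∩ f ⁻¹' Z)ᶜ : Set ℕ) :=
    (nonempty_denumerable ((X ∩ f ⁻¹' Z)ᶜ : Set ℕ)).some.eqv.trans
      (nonempty_denumerable ((Y ∩ f ⁻¹' Z)ᶜ : Set ℕ)).some.eqv.symm
  let σ : Equiv.Perm ℕ := ((Equiv.Set.sumCompl (X ∩ f ⁻¹' Z)).symm.trans
    (Equiv.sumCongr (eX.trans eY.symm) eC)).trans (Equiv.Set.sumCompl (Y ∩ f ⁻¹' Z))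
  have hσ : ∀ x (hx : x ∈ X ∩ f ⁻¹' Z), σ x ∈ Y ∩ f ⁻¹' Z ∧ f (σ x) = f x := by
    intro x hx
    have h1 : σ x = ((eX.trans eY.symm) ⟨x, hx⟩ : ℕ) := by
      simp only [σ, Equiv.trans_apply]
      rw [Equiv.Set.sumCompl_symm_apply_of_mem hx]
      simp
    have h2 : eY ((eX.trans eY.symm) ⟨x, hx⟩) = eX ⟨x, hx⟩ := by simp
    have h3 : ((eY ((eX.trans eY.symm) ⟨x, hx⟩) : Z) : ℕ) = f ((eX.trans eY.symm) ⟨x, hx⟩ : ℕ) :=
      rfl
    have h4 : ((eX ⟨x, hx⟩ : Z) : ℕ) = f x := rfl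
    rw [h1]
    refine ⟨((eX.trans eY.symm) ⟨x, hx⟩).2, ?_⟩
    rw [← h3, h2, h4]
  refine ⟨σ, ?_⟩
  apply Ultrafilter.coe_injective
  have hle : ∀ s, s ∈ V → s ∈ U.map σ := by
    intro s hs
    rw [map_mem]
    have h1 : f '' (s ∩ Y) ∈ V.map f := Filter.image_mem_map (Filter.inter_mem hs hY)
    rw [← heq, map_mem] at h1
    have h2 : X ∩ f ⁻¹' Z ∈ U := Filter.inter_mem hX (map_mem.mp hZm)
    refine Filter.mem_of_superset (Filter.inter_mem h1 h2) ?_
    rintro x ⟨⟨y, ⟨hys, hyY⟩, hyx⟩, hx2⟩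
    obtain ⟨h3, h4⟩ := hσ x hx2
    have : σ x = y := hYi h3.1 hyY (h4.trans hyx.symm)
    rw [Set.mem_preimage, this]
    exact hys
  apply le_antisymm
  · intro s hs
    exact hle s hs
  · intro s hs
    by_contra hs'
    have h1 : sᶜ ∈ V := Ultrafilter.compl_mem_iff_notMem.mpr hs'
    exact (Ultrafilter.compl_mem_iff_notMem.mp (hle _ h1)) hs

/-- An isomorphism is witnessed by one of the coarse maps of a dominating family. -/
theorem map_eq_of_iso {D : Set (ℕ → ℕ)} (hD : Dominating D) {U : Ultrafilter ℕ}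
    (hU : ∀ n : ℕ, ({n} : Set ℕ) ∉ U) (σ : Equiv.Perm ℕ) :
    ∃ d ∈ D, ∃ b, U.map (g b d) = (U.map σ).map (g b d) := by
  obtain ⟨d, hd, N, hN⟩ := exists_g hD (fun i => max (σ i) (σ.symm i))
  have hmem : {i | g false d i = g false d (σ i)} ∪ {i | g true d i = g true d (σ i)} ∈ U := by
    have hfin : ({i | i < N} ∪ {i | σ i < N} : Set ℕ).Finite := by
      apply Set.Finite.union (Set.finite_Iio N)
      have : {i | σ i < N} = σ ⁻¹' (Set.Iio N) := rfl
      rw [this]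
      exact (Set.finite_Iio N).preimage σ.injective.injOn
    have h1 : (({i | i < N} ∪ {i | σ i < N})ᶜ : Set ℕ) ∈ U :=
      Ultrafilter.compl_mem_iff_notMem.mpr (nonprincipal_fin hU _ hfin)
    refine Filter.mem_of_superset h1 ?_
    intro i hi
    simp only [Set.mem_compl_iff, Set.mem_union, Set.mem_ofPred_eq, not_or, not_lt] at hi
    rcases le_total i (σ i) with h | h
    · rcases hN i hi.1 (σ i) h (le_max_left _ _) with h2 | h2
      · exact Or.inl h2
      · exact Or.inr h2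
    · rcases hN (σ i) hi.2 i h (le_trans (by simp) (le_max_right _ _)) with h2 | h2
      · exact Or.inl h2.symm
      · exact Or.inr h2.symm
  have haux : ∀ b, {i | g b d i = g b d (σ i)} ∈ U → U.map (g b d) = (U.map σ).map (g b d) := by
    intro b hb
    apply Ultrafilter.coe_injective
    show Filter.map (g b d) (U : Filter ℕ) = Filter.map (g b d) (Filter.map σ (U : Filter ℕ))
    rw [Filter.map_map]
    apply Filter.map_congr
    exact hb
  rcases Ultrafilter.union_mem_iff.mp hmem with h | h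
  · exact ⟨d, hd, false, haux false h⟩
  · exact ⟨d, hd, true, haux true h⟩

/-- limits of Q-points along an ultrafilter with good sets have selectors -/
theorem limit_sel {u : ℕ → Ultrafilter ℕ} {f : ℕ → ℕ}
    (hu : Function.Injective (fun k => (u k).map f))
    (hsel : ∀ k, ∃ X ∈ u k, InjOn f X) (W : Ultrafilter ℕ) (hW : ∀ s : Set ℕ, s.Finite → s ∉ W)
    (hgood : ∃ A ∈ W, Good (fun k => (u k).map f) A) : ∃ X ∈ W.bind u, InjOn f X := by
  obtain ⟨A, hAW, m, hm⟩ := hgood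
  have hA1 : A \ {m} ∈ W := by
    have : ({m} : Set ℕ)ᶜ ∈ W := Ultrafilter.compl_mem_iff_notMem.mpr (hW _ (Set.finite_singleton m))
    exact Filter.inter_mem hAW this
  obtain ⟨Z, hZ1, hZ2⟩ := disc hu (A \ {m}) (by
    intro k hk
    obtain ⟨N, hN, hfin⟩ := hm k hk.2
    exact ⟨N, hN, hfin.subset (fun j hj => ⟨hj.1.1, hj.2⟩)⟩)
  choose X hX hXi using hsel
  refine ⟨⋃ k ∈ A \ {m}, X k ∩ f ⁻¹' Z k, ?_, ?_⟩
  · rw [bind_mem]
    refine Filter.mem_of_superset hA1 ?_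
    intro k hk
    refine Filter.mem_of_superset (Filter.inter_mem (hX k) (map_mem.mp (hZ1 k hk))) ?_
    exact Set.subset_biUnion_of_mem (u := fun k => X k ∩ f ⁻¹' Z k) hk
  · intro x hx y hy hxy
    simp only [Set.mem_iUnion] at hx hy
    obtain ⟨k, hk, hxk, hxZ⟩ := hx
    obtain ⟨j, hj, hyj, hyZ⟩ := hy
    have hkj : k = j := by
      by_contra hne
      apply Set.disjoint_left.mp (hZ2 k hk j hj hne) hxZ
      rw [hxy]
      exact hyZ
    subst hkj
    exact hXi k hxk hyj hxy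

/-- limits along good ultrafilters on almost disjoint sets differ -/
theorem limit_ne {v : ℕ → Ultrafilter ℕ} (hv : Function.Injective v)
    (W W' : Ultrafilter ℕ) (hW : ∀ s : Set ℕ, s.Finite → s ∉ W)
    (hW' : ∀ s : Set ℕ, s.Finite → s ∉ W') (hgood : ∃ A ∈ W, Good v A)
    (hgood' : ∃ A ∈ W', Good v A) (K K' : Set ℕ) (hK : K ∈ W) (hK' : K' ∈ W')
    (hfin : (K ∩ K').Finite) : W.bind v ≠ W'.bind v := by
  intro heq
  obtain ⟨A, hA, hAg⟩ := hgood
  obtain ⟨A', hA', hAg'⟩ := hgood'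
  obtain ⟨B, hB, _, hBk⟩ := good_use hAg W hA
  obtain ⟨B', hB', _, hBk'⟩ := good_use hAg' W' hA'
  rw [← heq] at hBk'
  -- the exceptional index
  have hexc : ({m | v m = W.bind v} : Set ℕ).Finite := by
    apply Set.Subsingleton.finite
    intro a ha b hb
    exact hv (ha.trans hb.symm)
  set E : Set ℕ := {m | v m = W.bind v} ∪ (K ∩ K') with hE
  have hEfin : E.Finite := hexc.union hfin
  have hC : (B ∩ K) \ E ∈ W := Filter.inter_mem (Filter.inter_mem hB hK)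
    (Ultrafilter.compl_mem_iff_notMem.mpr (hW _ hEfin))
  have hC' : (B' ∩ K') \ E ∈ W' := Filter.inter_mem (Filter.inter_mem hB' hK')
    (Ultrafilter.compl_mem_iff_notMem.mpr (hW' _ hEfin))
  obtain ⟨Z, hZ1, hZ2⟩ := disc hv (((B ∩ K) \ E) ∪ ((B' ∩ K') \ E)) (by
    intro k hk
    have hkE : k ∉ E := by
      rcases hk with h | h
      · exact h.2
      · exact h.2
    have hkz : v k ≠ W.bind v := fun h => hkE (Or.inl h)
    obtain ⟨N, hN, hNf⟩ := hBk k hkz
    obtain ⟨N', hN', hNf'⟩ := hBk' k hkz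
    refine ⟨N ∩ N', Filter.inter_mem hN hN', ?_⟩
    refine (hNf.union hNf').subset ?_
    rintro j ⟨hj, hj2⟩
    rcases hj with h | h
    · exact Or.inl ⟨h.1.1, Filter.mem_of_superset hj2 Set.inter_subset_left⟩
    · exact Or.inr ⟨h.1.1, Filter.mem_of_superset hj2 Set.inter_subset_right⟩)
  have h1 : (⋃ k ∈ (B ∩ K) \ E, Z k) ∈ W.bind v := by
    rw [bind_mem]
    refine Filter.mem_of_superset hC ?_
    intro k hk
    exact Filter.mem_of_superset (hZ1 k (Or.inl hk)) (Set.subset_biUnion_of_mem (u := Z) hk)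
  have h2 : (⋃ k ∈ (B' ∩ K') \ E, Z k) ∈ W.bind v := by
    rw [heq, bind_mem]
    refine Filter.mem_of_superset hC' ?_
    intro k hk
    exact Filter.mem_of_superset (hZ1 k (Or.inr hk)) (Set.subset_biUnion_of_mem (u := Z) hk)
  obtain ⟨x, hx1, hx2⟩ := Ultrafilter.nonempty_of_mem (Filter.inter_mem h1 h2)
  simp only [Set.mem_iUnion] at hx1 hx2
  obtain ⟨k, hk, hxk⟩ := hx1
  obtain ⟨j, hj, hxj⟩ := hx2
  have hkj : k ≠ j := by
    rintro rfl
    exact hk.2 (Or.inr ⟨hk.1.2, hj.1.2⟩)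
  exact Set.disjoint_left.mp (hZ2 k (Or.inl hk) j (Or.inr hj) hkj) hxk hxj

end Pool.Agent.H562R3
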