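import Pool.Agent.H562R3.QBase

set_option autoImplicit false

/-!
Interval partitions from a dominating family.
-/

namespace Pool.Agent.H562R3

open Set Filter Cardinal

/-- end points of the intervals attached to a function -/
def ends (d : ℕ → ℕ) : ℕ → ℕ
  | 0 => 0
  | n + 1 => ends d n + 1 + ∑ i ∈ Finset.range (ends d n + 1), d i

theorem ends_lt (d : ℕ → ℕ) (n : ℕ) : ends d n < ends d (n + 1) := by
  simp only [ends]; omega

theorem ends_strictMono (d : ℕ → ℕ) : StrictMono (ends d) := strictMono_nat_of_lt_succ (ends_lt d)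

theorem d_lt_ends (d : ℕ → ℕ) (n i : ℕ) (h : i ≤ ends d n) : d i < ends d (n + 1) := by
  have : d i ≤ ∑ i ∈ Finset.range (ends d n + 1), d i :=
    Finset.single_le_sum (f := d) (fun _ _ => Nat.zero_le _) (Finset.mem_range.mpr (by omega))
  simp only [ends]; omega

/-- index of the interval containing a point -/
def idx (d : ℕ → ℕ) (i : ℕ) : ℕ := Nat.findGreatest (fun n => ends d n ≤ i) i

theorem idx_spec (d : ℕ → ℕ) (i : ℕ) : ends d (idx d i) ≤ i ∧ i < ends d (idx d i + 1) := by
  have h0 : ends d 0 ≤ i := by simp [ends]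
  have h1 : ends d (idx d i) ≤ i :=
    Nat.findGreatest_spec (P := fun n => ends d n ≤ i) (Nat.zero_le i) h0
  refine ⟨h1, ?_⟩
  by_contra hcon
  push Not at hcon
  have h2 : idx d i + 1 ≤ i := le_trans ((ends_strictMono d).id_le _) hcon
  have h3 : idx d i + 1 ≤ idx d i := Nat.le_findGreatest h2 hcon
  omega

theorem idx_le_of_lt (d : ℕ → ℕ) {i n : ℕ} (h : i < ends d (n + 1)) : idx d i ≤ n := by
  by_contra hcon
  push Not at hcon
  have h1 := (idx_spec d i).1
  have h2 : ends d (n + 1) ≤ ends d (idx d i) := (ends_strictMono d).monotone (by omega)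
  omega

theorem idx_mono (d : ℕ → ℕ) {i j : ℕ} (h : i ≤ j) : idx d i ≤ idx d j := by
  apply idx_le_of_lt
  exact lt_of_le_of_lt h (idx_spec d j).2

/-- the two coarse index maps -/
def g (b : Bool) (d : ℕ → ℕ) (i : ℕ) : ℕ := (idx d i + (if b then 1 else 0)) / 2

theorem g_fin (b : Bool) (d : ℕ → ℕ) (m : ℕ) : {i | g b d i = m}.Finite := by
  apply (Set.finite_Iio (ends d (2 * m + 2))).subset
  intro i hi
  have h1 := (idx_spec d i).2
  have h2 : idx d i + 1 ≤ 2 * m + 2 := by
    simp only [Set.mem_ofPred_eq, g] at hi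
    split at hi <;> omega
  have h3 : ends d (idx d i + 1) ≤ ends d (2 * m + 2) := (ends_strictMono d).monotone h2
  exact Set.mem_Iio.mpr (by omega)

/-- For every `h` there is `d` in the dominating family such that nearby points are
identified by one of the two maps. -/
theorem exists_g {D : Set (ℕ → ℕ)} (hD : Dominating D) (h : ℕ → ℕ) :
    ∃ d ∈ D, ∃ N, ∀ i, N ≤ i → ∀ j, i ≤ j → j ≤ h i →
      g false d i = g false d j ∨ g true d i = g true d j := by
  obtain ⟨d, hd, N, hN⟩ := hD h
  refine ⟨d, hd, N, fun i hi j hij hj => ?_⟩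
  have h1 := idx_spec d i
  have h2 : d i < ends d (idx d i + 2) := d_lt_ends d _ i h1.2.le
  have h3 : j < ends d (idx d i + 1 + 1) :=
    lt_of_le_of_lt (hj.trans (hN i hi)) h2
  have h4 : idx d j ≤ idx d i + 1 := idx_le_of_lt d h3
  have h5 : idx d i ≤ idx d j := idx_mono d hij
  simp only [g]
  simp only [Bool.false_eq_true, if_false, if_true]
  omega

end Pool.Agent.H562R3
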