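import Pool.Agent.H562R3.QIdx

set_option autoImplicit false

/-!
Recursion of length the dominating number.
-/

namespace Pool.Agent.H562R3

open Set Filter Cardinal

/-- If `u d b` is an injective sequence of ultrafilters for every `d` in a set of functions of size at
most the dominating number, then for every infinite `K` there is a nonprincipal ultrafilter
containing `K` which contains a good set for all of them. -/
theorem exists_good_ultra {ι : Type} [LinearOrder ι] [WellFoundedLT ι]
    (hι : ∀ a : ι, Cardinal.mk (Set.Iio a) < dNum)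
    (u : ι → Bool → ℕ → Ultrafilter ℕ) (hu : ∀ a b, Function.Injective (u a b))
    (K : Set ℕ) (hK : K.Infinite) :
    ∃ W : Ultrafilter ℕ, K ∈ W ∧ (∀ s : Set ℕ, s.Finite → s ∉ W) ∧
      ∀ a b, ∃ A ∈ W, Good (u a b) A := by
  classical
  -- the recursion
  let P : (a : ι) → ((b : ι) → b < a → Set ℕ) → Set ℕ → Prop := fun a IH A =>
    (∀ b, Good (u a b) A) ∧
    ∀ s : Finset (Set.Iio a), ((K ∩ ⋂ i ∈ s, IH i.1 i.2) ∩ A).Infinite
  let step : (a : ι) → ((b : ι) → b < a → Set ℕ) → Set ℕ := fun a IH =>
    if h : ∃ A, P a IH A then h.choose else Set.univ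
  let B : ι → Set ℕ := (wellFounded_lt (α := ι)).fix step
  have hB : ∀ a, B a = step a (fun b _ => B b) := fun a => (wellFounded_lt (α := ι)).fix_eq step a
  have hfin : ∀ a : ι, ∀ s : Finset ι, (∀ i ∈ s, i ≤ a) → (K ∩ ⋂ i ∈ s, B i).Infinite := by
    intro a
    induction a using WellFoundedLT.induction with
    | ind a IH =>
      -- intersections of members below a
      have hlt : ∀ s : Finset ι, (∀ i ∈ s, i < a) → (K ∩ ⋂ i ∈ s, B i).Infinite := by
        intro s hs
        by_cases hne : s.Nonempty
        · have hmax := s.max'_mem hne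
          exact IH (s.max' hne) (hs _ hmax) s (fun i hi => s.le_max' i hi)
        · rw [Finset.not_nonempty_iff_eq_empty] at hne
          subst hne
          simpa using hK
      have hkey : ∃ A, P a (fun b _ => B b) A := by
        have hT : Cardinal.mk (Finset (Set.Iio a)) < dNum := by
          rcases finite_or_infinite (Set.Iio a) with hf | hf
          · exact lt_trans (Cardinal.lt_aleph0_of_finite _) aleph0_lt_dNum
          · rw [Cardinal.mk_finset_of_infinite]
            exact hι a
        obtain ⟨A, hA1, hA2, hA3⟩ := key2 hT (fun s : Finset (Set.Iio a) => K ∩ ⋂ i ∈ s, B i.1)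
          (by
            intro s t
            refine ⟨s ∪ t, ?_, ?_⟩
            · rintro x ⟨hx1, hx2⟩
              refine ⟨hx1, ?_⟩
              simp only [Set.mem_iInter] at hx2 ⊢
              exact fun i hi => hx2 i (Finset.mem_union_left _ hi)
            · rintro x ⟨hx1, hx2⟩
              refine ⟨hx1, ?_⟩
              simp only [Set.mem_iInter] at hx2 ⊢
              exact fun i hi => hx2 i (Finset.mem_union_right _ hi))
          (by
            intro s
            have := hlt (s.image Subtype.val) (by
              intro i hi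
              rw [Finset.mem_image] at hi
              obtain ⟨j, _, rfl⟩ := hi
              exact j.2)
            refine this.mono ?_
            rintro x ⟨hx1, hx2⟩
            refine ⟨hx1, ?_⟩
            simp only [Set.mem_iInter] at hx2 ⊢
            exact fun i hi => hx2 i.1 (Finset.mem_image_of_mem _ hi))
          (u a false) (u a true) (hu a false) (hu a true)
        refine ⟨A, ?_, hA3⟩
        intro b
        cases b
        · exact hA1
        · exact hA2
      have hBa : P a (fun b _ => B b) (B a) := by
        rw [hB a]
        simp only [step]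
        rw [dif_pos hkey]
        exact hkey.choose_spec
      intro s hs
      have h1 := hBa.2 ((s.filter (fun i => i < a)).attach.image (fun i =>
        (⟨i.1, (Finset.mem_filter.mp i.2).2⟩ : Set.Iio a)))
      refine h1.mono ?_
      rintro x ⟨⟨hx1, hx2⟩, hx3⟩
      refine ⟨hx1, ?_⟩
      simp only [Set.mem_iInter] at hx2 ⊢
      intro i hi
      rcases lt_or_eq_of_le (hs i hi) with h | h
      · apply hx2 ⟨i, h⟩
        rw [Finset.mem_image]
        exact ⟨⟨i, Finset.mem_filter.mpr ⟨hi, h⟩⟩, Finset.mem_attach _ _, rfl⟩
      · rw [h]; exact hx3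
  have hall : ∀ s : Finset ι, (K ∩ ⋂ i ∈ s, B i).Infinite := by
    intro s
    by_cases hne : s.Nonempty
    · exact hfin (s.max' hne) s (fun i hi => s.le_max' i hi)
    · rw [Finset.not_nonempty_iff_eq_empty] at hne
      subst hne
      simpa using hK
  have hgood : ∀ a b, Good (u a b) (B a) := by
    intro a b
    have hkey : ∃ A, P a (fun b _ => B b) A := by
      have hT : Cardinal.mk (Finset (Set.Iio a)) < dNum := by
        rcases finite_or_infinite (Set.Iio a) with hf | hf
        · exact lt_trans (Cardinal.lt_aleph0_of_finite _) aleph0_lt_dNum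
        · rw [Cardinal.mk_finset_of_infinite]
          exact hι a
      obtain ⟨A, hA1, hA2, hA3⟩ := key2 hT (fun s : Finset (Set.Iio a) => K ∩ ⋂ i ∈ s, B i.1)
        (by
          intro s t
          refine ⟨s ∪ t, ?_, ?_⟩
          · rintro x ⟨hx1, hx2⟩
            refine ⟨hx1, ?_⟩
            simp only [Set.mem_iInter] at hx2 ⊢
            exact fun i hi => hx2 i (Finset.mem_union_left _ hi)
          · rintro x ⟨hx1, hx2⟩
            refine ⟨hx1, ?_⟩
            simp only [Set.mem_iInter] at hx2 ⊢
            exact fun i hi => hx2 i (Finset.mem_union_right _ hi))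
        (by
          intro s
          have := hall (s.image Subtype.val)
          refine this.mono ?_
          rintro x ⟨hx1, hx2⟩
          refine ⟨hx1, ?_⟩
          simp only [Set.mem_iInter] at hx2 ⊢
          exact fun i hi => hx2 i.1 (Finset.mem_image_of_mem _ hi))
        (u a false) (u a true) (hu a false) (hu a true)
      refine ⟨A, ?_, hA3⟩
      intro b
      cases b
      · exact hA1
      · exact hA2
    have hBa : P a (fun b _ => B b) (B a) := by
      rw [hB a]
      simp only [step]
      rw [dif_pos hkey]
      exact hkey.choose_spec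
    exact hBa.1 b
  obtain ⟨W, hW1, hW2⟩ := exists_ultra (fun s : Finset ι => K ∩ ⋂ i ∈ s, B i)
    (by
      intro s t
      refine ⟨s ∪ t, ?_, ?_⟩
      · rintro x ⟨hx1, hx2⟩
        refine ⟨hx1, ?_⟩
        simp only [Set.mem_iInter] at hx2 ⊢
        exact fun i hi => hx2 i (Finset.mem_union_left _ hi)
      · rintro x ⟨hx1, hx2⟩
        refine ⟨hx1, ?_⟩
        simp only [Set.mem_iInter] at hx2 ⊢
        exact fun i hi => hx2 i (Finset.mem_union_right _ hi))
    hall
  refine ⟨W, ?_, hW2, ?_⟩
  · exact Filter.mem_of_superset (hW1 ∅) Set.inter_subset_left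
  · intro a b
    refine ⟨B a, ?_, hgood a b⟩
    refine Filter.mem_of_superset (hW1 {a}) ?_
    rintro x ⟨_, hx⟩
    simpa using hx

end Pool.Agent.H562R3
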